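import Pool.Agent.K1H81.DC.Stm

set_option autoImplicit false

/-! Project DC, piece QS: moments of the quadratic character. -/

namespace Pool.Agent.K1H37.DC

open Finset
open Pool.Agent.K1H81.DC
open Pool.Agent.K1H81.HV (KK)

theorem t : S_QS := by
  classical
  intro p _ hp2 j hj Y hY k
  have hp := (Fact.out : p.Prime)
  have hodd : Odd (p ^ j) := (hp.odd_of_ne_two hp2).pow
  obtain ⟨h, hh⟩ := hodd
  have hq1 : 1 < p ^ j := Nat.one_lt_pow hj.ne' hp.one_lt
  have hhpos : 0 < h := by omega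
  have hdiv : (p ^ j - 1) / 2 = h := by omega
  have hY0 : (0 : KK p) ∈ Y := by
    rw [hY]
    exact zero_pow (by omega)
  have hcard : Y.card = p ^ j := by
    obtain ⟨Z, hZ, hZc⟩ := Pool.Agent.K1H81.HV.card_fix (p := p) j hj
    have : Y = Z := Finset.ext fun y => (hY y).trans (hZ y).symm
    rw [this, hZc]
  have hsq : ∀ y ∈ Y, y ≠ 0 → y ^ h ≠ 1 → y ^ h = -1 := by
    intro y hy hy0 hy1
    have h1 : y ^ p ^ j = y := (hY y).mp hy
    have h2 : y * ((y ^ h - 1) * (y ^ h + 1)) = 0 := by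
      have h3 : y * ((y ^ h - 1) * (y ^ h + 1)) = y ^ (2 * h + 1) - y := by ring
      rw [h3, ← hh, h1, sub_self]
    rcases mul_eq_zero.mp h2 with h3 | h3
    · exact absurd h3 hy0
    · rcases mul_eq_zero.mp h3 with h4 | h4
      · exact absurd (sub_eq_zero.mp h4) hy1
      · exact eq_neg_of_add_eq_zero_left h4
  obtain ⟨S1, hS1⟩ : ∃ S1, S1 = (Y.erase 0).filter fun y => y ^ h = 1 := ⟨_, rfl⟩
  obtain ⟨S2, hS2⟩ : ∃ S2, S2 = (Y.erase 0).filter fun y => ¬ y ^ h = 1 := ⟨_, rfl⟩
  have hc : S1.card + S2.card = 2 * h := by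
    rw [hS1, hS2, card_filter_add_card_filter_not, card_erase_of_mem hY0, hcard]
    omega
  have hc1 : S1.card ≤ h := by
    refine (card_le_card (t := (Polynomial.nthRoots h (1 : KK p)).toFinset) fun y hy => ?_).trans
      ((Multiset.toFinset_card_le _).trans (Polynomial.card_nthRoots h _))
    rw [hS1, mem_filter] at hy
    rw [Multiset.mem_toFinset, Polynomial.mem_nthRoots hhpos]
    exact hy.2
  have hc2 : S2.card ≤ h := by
    refine (card_le_card (t := (Polynomial.nthRoots h (-1 : KK p)).toFinset) fun y hy => ?_).trans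
      ((Multiset.toFinset_card_le _).trans (Polynomial.card_nthRoots h _))
    rw [hS2, mem_filter, mem_erase] at hy
    rw [Multiset.mem_toFinset, Polynomial.mem_nthRoots hhpos]
    exact hsq y hy.1.2 hy.1.1 hy.2
  have hsum : ∑ y ∈ Y, qc p j y ^ k =
      (0 : ℝ) ^ k + (S1.card * (1 : ℝ) ^ k + S2.card * (-1 : ℝ) ^ k) := by
    rw [← add_sum_erase Y _ hY0]
    congr 1
    · simp [qc]
    rw [← sum_filter_add_sum_filter_not (Y.erase 0) (fun y => y ^ h = 1), ← hS1, ← hS2]
    congr 1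
    · rw [sum_congr rfl (g := fun _ => (1 : ℝ) ^ k), sum_const, nsmul_eq_mul]
      intro y hy
      rw [hS1, mem_filter, mem_erase] at hy
      rw [qc, if_neg hy.1.1, hdiv, if_pos hy.2]
    · rw [sum_congr rfl (g := fun _ => (-1 : ℝ) ^ k), sum_const, nsmul_eq_mul]
      intro y hy
      rw [hS2, mem_filter, mem_erase] at hy
      rw [qc, if_neg hy.1.1, hdiv, if_neg hy.2]
  have hc1' : S1.card = h := by omega
  have hc2' : S2.card = h := by omega
  have hqR : (p : ℝ) ^ j = 2 * h + 1 := by exact_mod_cast hh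
  have hne : (2 * (h : ℝ) + 1) ≠ 0 := by positivity
  rw [hsum, hc1', hc2', hqR, ebq]
  rcases Nat.eq_zero_or_pos k with rfl | hk
  · simp
    ring
  rw [if_neg hk.ne', zero_pow hk.ne', one_pow]
  rcases Nat.even_or_odd k with he | ho
  · rw [if_pos he, he.neg_one_pow]
    field_simp
    ring
  · rw [if_neg (Nat.not_even_iff_odd.mpr ho), ho.neg_one_pow]
    ring

end Pool.Agent.K1H37.DC
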